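import Pool.Agent.H49.CL.Targets

/-!
# More identifications, fewer classes (row NCA of `cl_modules`)
-/

set_option autoImplicit false

namespace Pool.Agent.H68.CHL

open Pool.Agent.H72.CH Pool.Agent.H49.CL

theorem pf_NCA : T_NCA := by
  intro V X _ m lv i φ ψ S hP him himp
  have hrefl : ∀ x : V, i ≤ lv x x := fun x => by rw [hP.self]; exact him
  have hsym : ∀ x y : V, i ≤ lv x y → i ≤ lv y x := fun x y h => by rw [hP.sym]; exact h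
  have htr : ∀ x y z : V, i ≤ lv x y → i ≤ lv y z → i ≤ lv x z := fun x y z h1 h2 =>
    (le_min h1 h2).trans (hP.ult x y z)
  obtain ⟨F, hF⟩ : ∃ F : Set X → Set X, ∀ C b, b ∈ F C ↔
      b ∈ S ∧ ∃ a ∈ C, i ≤ lv (ψ a) (ψ b) := ⟨fun C => {b | b ∈ S ∧ ∃ a ∈ C, i ≤ lv (ψ a) (ψ b)},
        fun _ _ => Iff.rfl⟩
  have hFC : ∀ a ∈ S, F {b | b ∈ S ∧ i ≤ lv (φ a) (φ b)} =
      {b | b ∈ S ∧ i ≤ lv (ψ a) (ψ b)} := by
    intro a ha
    ext b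
    rw [hF]
    constructor
    · rintro ⟨hb, a', ⟨ha', h1⟩, h2⟩
      exact ⟨hb, htr _ _ _ (himp a ha a' ha' h1) h2⟩
    · rintro ⟨hb, h1⟩
      exact ⟨hb, a, ⟨ha, hrefl _⟩, h1⟩
  have himg : (fun a => {b | b ∈ S ∧ i ≤ lv (ψ a) (ψ b)}) '' S =
      F '' ((fun a => {b | b ∈ S ∧ i ≤ lv (φ a) (φ b)}) '' S) := by
    rw [Set.image_image]
    apply Set.image_congr
    intro a ha
    exact (hFC a ha).symm
  have hle : ncl lv i ψ S ≤ ncl lv i φ S := by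
    unfold ncl
    rw [himg]
    exact Set.ncard_image_le (Set.toFinite _)
  refine ⟨hle, ?_⟩
  rintro ⟨a, ha, b, hb, h1, h2⟩
  refine lt_of_le_of_ne hle fun heq => ?_
  unfold ncl at heq
  rw [himg] at heq
  have hinj := Set.injOn_of_ncard_image_eq heq (Set.toFinite _)
  have h3 : F {c | c ∈ S ∧ i ≤ lv (φ a) (φ c)} = F {c | c ∈ S ∧ i ≤ lv (φ b) (φ c)} := by
    rw [hFC a ha, hFC b hb]
    ext c
    constructor
    · rintro ⟨hc, h4⟩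
      exact ⟨hc, htr _ _ _ (hsym _ _ h1) h4⟩
    · rintro ⟨hc, h4⟩
      exact ⟨hc, htr _ _ _ h1 h4⟩
  have h4 : {c | c ∈ S ∧ i ≤ lv (φ a) (φ c)} = {c | c ∈ S ∧ i ≤ lv (φ b) (φ c)} :=
    hinj ⟨a, ha, rfl⟩ ⟨b, hb, rfl⟩ h3
  have h5 : b ∈ {c | c ∈ S ∧ i ≤ lv (φ b) (φ c)} := ⟨hb, hrefl _⟩
  rw [← h4] at h5
  exact h2 h5.2

end Pool.Agent.H68.CHL
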